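import Pool.Agent.W500.CS.Stm2

/-!
# Project CQ, part ABS: from integrated to pointwise bounds
-/

set_option autoImplicit false

open MeasureTheory Polynomial Metric Set Filter Topology
open scoped ComplexConjugate Manifold ContDiff

namespace Pool.Agent.W696.CQ

open Pool.Agent.W500.CS

lemma urysohn (K V : Set ℂ) (hK : IsCompact K) (hV : IsOpen V) (hKV : K ⊆ V) :
    ∃ φ : ℂ → ℝ, ContDiff ℝ 1 φ ∧ HasCompactSupport φ ∧ tsupport φ ⊆ V ∧
      (∀ z, 0 ≤ φ z ∧ φ z ≤ 1) ∧ (∀ z ∈ K, φ z = 1) := by
  obtain ⟨K', hK', hK1, hK2⟩ := exists_compact_between hK hV hKV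
  obtain ⟨f, hf0, hf1, hf2⟩ := exists_contMDiffMap_zero_one_of_isClosed (n := (⊤ : ℕ∞)) 𝓘(ℝ, ℂ)
    (s := (interior K')ᶜ) (t := K) isOpen_interior.isClosed_compl hK.isClosed
    (by
      rw [Set.disjoint_left]
      intro z hz hz'
      exact hz (hK1 hz'))
  have hsupp : tsupport (f : ℂ → ℝ) ⊆ K' := by
    apply closure_minimal _ hK'.isClosed
    intro z hz
    by_contra hcon
    apply hz
    have := hf0 (fun h : z ∈ interior K' => hcon (interior_subset h))
    simpa using this
  refine ⟨f, ?_, HasCompactSupport.of_support_subset_isCompact hK'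
    ((subset_tsupport _).trans hsupp), hsupp.trans hK2, fun z => ⟨(hf2 z).1, (hf2 z).2⟩, ?_⟩
  · exact (f.contMDiff.contDiff).of_le (by exact_mod_cast le_top)
  · intro z hz
    have := hf1 hz
    simpa using this

lemma half (μ : Measure ℂ) [IsFiniteMeasure μ] (D : Set ℂ) (h : ℂ → ℝ) (M : ℝ)
    (hD : IsOpen D) (hh : Measurable h) (hM : ∀ z, |h z| ≤ M)
    (hφ : ∀ φ : ℂ → ℝ, ContDiff ℝ 1 φ → HasCompactSupport φ → tsupport φ ⊆ D →
      (∀ z, 0 ≤ φ z) → ∫ z, φ z * h z ∂μ ≤ 0) :
    ∀ᵐ z ∂μ, z ∈ D → h z ≤ 0 := by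
  have hM0 : 0 ≤ M := (abs_nonneg _).trans (hM 0)
  have hint : Integrable h μ := by
    refine Integrable.of_bound hh.aestronglyMeasurable M ?_
    exact Filter.Eventually.of_forall (fun z => by rw [Real.norm_eq_abs]; exact hM z)
  obtain ⟨A, hA⟩ : ∃ A : Set ℂ, A = {z | z ∈ D ∧ 0 < h z} := ⟨_, rfl⟩
  have hAm : MeasurableSet A := by
    rw [hA]
    exact hD.measurableSet.inter (measurableSet_lt measurable_const hh)
  have hA0 : μ A = 0 := by
    by_contra hne
    have hpos : 0 < μ A := pos_iff_ne_zero.mpr hne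
    obtain ⟨K, hKA, hK, hK0⟩ := hAm.exists_lt_isCompact hpos
    have hKm : MeasurableSet K := hK.measurableSet
    have hKD : K ⊆ D := fun z hz => by
      have := hKA hz
      rw [hA] at this
      exact this.1
    have hKh : ∀ z ∈ K, 0 < h z := fun z hz => by
      have := hKA hz
      rw [hA] at this
      exact this.2
    have key : ∫ z in K, h z ∂μ ≤ 0 := by
      apply le_of_forall_pos_le_add
      intro ε hε
      obtain ⟨ε', hε', hε'2⟩ : ∃ ε' : ℝ, 0 < ε' ∧ M * ε' ≤ ε := by
        refine ⟨ε / (M + 1), by positivity, ?_⟩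
        rw [mul_div_assoc', div_le_iff₀ (by positivity)]
        nlinarith
      obtain ⟨U, hKU, hU, hμU⟩ := K.exists_isOpen_lt_add (μ := μ) (measure_ne_top μ K)
        (ε := ENNReal.ofReal ε') (by simpa using hε')
      obtain ⟨φ, hφ1, hφ2, hφ3, hφ4, hφ5⟩ := urysohn K (U ∩ D) hK (hU.inter hD)
        (subset_inter hKU hKD)
      have i1 := hφ φ hφ1 hφ2 (hφ3.trans inter_subset_right) (fun z => (hφ4 z).1)
      have hφm : Measurable φ := hφ1.continuous.measurable
      have hint2 : Integrable (fun z => φ z * h z) μ := by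
        refine Integrable.of_bound (hφm.mul hh).aestronglyMeasurable M ?_
        refine Filter.Eventually.of_forall (fun z => ?_)
        rw [Real.norm_eq_abs, abs_mul, abs_of_nonneg (hφ4 z).1]
        calc φ z * |h z| ≤ 1 * M := mul_le_mul (hφ4 z).2 (hM z) (abs_nonneg _) zero_le_one
          _ = M := one_mul M
      have hint3 : Integrable ((U \ K).indicator (fun _ => M)) μ :=
        (integrable_const M).indicator (hU.measurableSet.diff hKm)
      have i2 : ∫ z in K, h z ∂μ ≤ ∫ z, φ z * h z ∂μ + ∫ z, (U \ K).indicator (fun _ => M) z ∂μ := by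
        rw [← integral_indicator hKm, ← integral_add hint2 hint3]
        apply integral_mono (hint.indicator hKm) (hint2.add hint3)
        intro z
        by_cases hzK : z ∈ K
        · have hz2 : z ∉ U \ K := fun h => h.2 hzK
          simp only [Set.indicator_of_mem hzK, Set.indicator_of_notMem hz2, hφ5 z hzK, one_mul,
            add_zero, Pi.add_apply, le_refl]
        · by_cases hzU : z ∈ U
          · have hz2 : z ∈ U \ K := ⟨hzU, hzK⟩
            simp only [Set.indicator_of_notMem hzK, Set.indicator_of_mem hz2, Pi.add_apply]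
            have h1 : -M ≤ φ z * h z := by
              have h2 : |φ z * h z| ≤ M := by
                rw [abs_mul, abs_of_nonneg (hφ4 z).1]
                calc φ z * |h z| ≤ 1 * M := mul_le_mul (hφ4 z).2 (hM z) (abs_nonneg _) zero_le_one
                  _ = M := one_mul M
              exact (abs_le.mp h2).1
            linarith
          · have hz2 : z ∉ U \ K := fun h => hzU h.1
            have hz3 : φ z = 0 := by
              by_contra hne
              exact hzU (hφ3 (subset_tsupport _ hne)).1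
            simp only [Set.indicator_of_notMem hzK, Set.indicator_of_notMem hz2, Pi.add_apply, hz3,
              zero_mul, add_zero, le_refl]
      have i3 : ∫ z, (U \ K).indicator (fun _ => M) z ∂μ ≤ ε := by
        rw [integral_indicator (hU.measurableSet.diff hKm), setIntegral_const, smul_eq_mul]
        have : μ.real (U \ K) ≤ ε' := by
          have h1 : μ (U \ K) < ENNReal.ofReal ε' :=
            measure_sdiff_lt_of_lt_add hKm.nullMeasurableSet hKU (measure_ne_top μ K) hμU
          exact ENNReal.toReal_le_of_le_ofReal hε'.le h1.le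
        calc μ.real (U \ K) * M ≤ ε' * M := mul_le_mul_of_nonneg_right this hM0
          _ = M * ε' := mul_comm _ _
          _ ≤ ε := hε'2
      linarith
    have key2 : ∫ z in K, h z ∂μ = 0 :=
      le_antisymm key (setIntegral_nonneg hKm (fun z hz => (hKh z hz).le))
    rw [setIntegral_eq_zero_iff_of_nonneg_ae] at key2
    · have h3 : μ.restrict K Set.univ = 0 := by
        have h4 : ∀ᵐ z ∂(μ.restrict K), False := by
          filter_upwards [key2, ae_restrict_mem hKm] with z hz1 hz2
          have := hKh z hz2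
          rw [hz1] at this
          simp at this
        rw [ae_iff] at h4
        simpa using h4
      rw [Measure.restrict_apply_univ] at h3
      exact hK0.ne' h3
    · filter_upwards [ae_restrict_mem hKm] with z hz
      exact (hKh z hz).le
    · exact hint.integrableOn
  have h5 : ∀ᵐ z ∂μ, z ∉ A := by
    rw [ae_iff]
    simpa using hA0
  filter_upwards [h5] with z hz hzD
  by_contra hcon
  push Not at hcon
  apply hz
  rw [hA]
  exact ⟨hzD, hcon⟩

theorem main : S_ABS := by
  intro μ _ D σ g M hD hσ hg hσM hgM hφ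
  have hb : ∀ f : ℂ → ℝ, Measurable f → (∀ z, |f z| ≤ M) → ∀ φ : ℂ → ℝ, ContDiff ℝ 1 φ →
      HasCompactSupport φ → Integrable (fun z => φ z * f z) μ := by
    intro f hf hfM φ hφ1 hφ2
    obtain ⟨C, hC⟩ := hφ2.exists_bound_of_continuous hφ1.continuous
    refine Integrable.of_bound (hφ1.continuous.measurable.mul hf).aestronglyMeasurable (C * M) ?_
    refine Filter.Eventually.of_forall (fun z => ?_)
    rw [norm_mul, Real.norm_eq_abs (f z)]
    exact mul_le_mul (hC z) (hfM z) (abs_nonneg _) ((norm_nonneg _).trans (hC z))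
  have h1 : ∀ᵐ z ∂μ, z ∈ D → (σ z - g z) ≤ 0 := by
    apply half μ D (fun z => σ z - g z) (M + M) hD (hσ.sub hg)
    · intro z
      exact (abs_sub _ _).trans (add_le_add (hσM z) (hgM z))
    · intro φ hφ1 hφ2 hφ3 hφ4
      have h2 := hφ φ hφ1 hφ2 hφ3
      have e1 : ∫ z, φ z * (σ z - g z) ∂μ = ∫ z, φ z * σ z ∂μ - ∫ z, φ z * g z ∂μ := by
        rw [← integral_sub (hb σ hσ hσM φ hφ1 hφ2) (hb g hg hgM φ hφ1 hφ2)]
        simp only [mul_sub]
      have e2 : ∫ z, |φ z| * g z ∂μ = ∫ z, φ z * g z ∂μ := by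
        simp only [fun z => abs_of_nonneg (hφ4 z)]
      rw [e1]
      rw [e2] at h2
      have := (abs_le.mp h2).2
      linarith
  have h1' : ∀ᵐ z ∂μ, z ∈ D → (-σ z - g z) ≤ 0 := by
    apply half μ D (fun z => -σ z - g z) (M + M) hD (hσ.neg.sub hg)
    · intro z
      exact (abs_sub _ _).trans (add_le_add (by rw [abs_neg]; exact hσM z) (hgM z))
    · intro φ hφ1 hφ2 hφ3 hφ4
      have h2 := hφ φ hφ1 hφ2 hφ3
      have e1 : ∫ z, φ z * (-σ z - g z) ∂μ = -∫ z, φ z * σ z ∂μ - ∫ z, φ z * g z ∂μ := by
        have e3 := integral_sub (hb (fun z => -σ z) hσ.neg (fun z => by rw [abs_neg]; exact hσM z)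
          φ hφ1 hφ2) (hb g hg hgM φ hφ1 hφ2)
        have e4 : ∫ z, φ z * (-σ z) ∂μ = -∫ z, φ z * σ z ∂μ := by
          simp only [mul_neg, integral_neg]
        rw [← e4, ← e3]
        simp only [mul_sub]
      have e2 : ∫ z, |φ z| * g z ∂μ = ∫ z, φ z * g z ∂μ := by
        simp only [fun z => abs_of_nonneg (hφ4 z)]
      rw [e1]
      rw [e2] at h2
      have := (abs_le.mp h2).1
      linarith
  filter_upwards [h1, h1'] with z hz hz' hzD
  rw [abs_le]
  have a := hz hzD
  have b := hz' hzD
  constructor <;> linarith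

end Pool.Agent.W696.CQ
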